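import Pool.Agent.H5.Mc0d803Ix

set_option autoImplicit false

namespace Pool.Agent.Results.MP_c0d803_al.Strict

open Pool.Agent.H5.Mc0d803

/-- There is a group with a presentation, over a finite alphabet, by an indexed language of
relators, but with no presentation over a finite alphabet by a context-free language of
relators. -/
theorem result : ∃ (G : Type) (_ : Group G), IsNestedStackGroup G ∧ ¬ IsContextFreeGroup G :=
  ⟨Gp, inferInstance, nested, not_cf⟩

end Pool.Agent.Results.MP_c0d803_al.Strict
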